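import Mathlib

/-!
Automorphisms `φ` with `x φ(x) = φ(x) x` for all `x`: conjugation by `y` and by `φ(y)` agree on
commutators. With a splitting identity of length `n` all `n`-th powers centralise the commutator
subgroup.
-/

set_option autoImplicit false

namespace Pool.Agent.H63.SP

open scoped commutatorElement

variable {G : Type*} [Group G] (φ : MulAut G) (hab : ∀ x : G, x * φ x = φ x * x)

include hab

theorem shift (g h : G) : ⁅φ g, h⁆ = ⁅g, φ h⁆ := by
  have key : ∀ g h : G, ⁅(φ g)⁻¹, h⁆ = ⁅g⁻¹, φ h⁆ := fun g h => by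
    have h1 := hab (g * h)
    rw [map_mul] at h1
    have hg := hab g
    have hh := hab h
    rw [commutatorElement_def, commutatorElement_def, inv_inv, inv_inv]
    have e1 : (φ g)⁻¹ * g = g * (φ g)⁻¹ := by
      have : Commute g (φ g) := hg
      exact (this.inv_right.eq).symm
    have e2 : h * (φ h)⁻¹ = (φ h)⁻¹ * h := by
      have : Commute h (φ h) := hh
      exact this.inv_right.eq
    have h2 : (φ g)⁻¹ * (g * h * (φ g * φ h)) = φ h * (g * h) := by
      rw [h1]; group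
    have h3 : g * ((φ g)⁻¹ * h * φ g * φ h) = φ h * (g * h) := by
      rw [← h2]
      calc g * ((φ g)⁻¹ * h * φ g * φ h) = (g * (φ g)⁻¹) * h * φ g * φ h := by group
        _ = ((φ g)⁻¹ * g) * h * φ g * φ h := by rw [e1]
        _ = _ := by group
    have h4 : (φ g)⁻¹ * h * φ g = g⁻¹ * φ h * g * (h * (φ h)⁻¹) := by
      have : (φ g)⁻¹ * h * φ g * φ h = g⁻¹ * (φ h * (g * h)) := by rw [← h3]; group
      calc (φ g)⁻¹ * h * φ g = ((φ g)⁻¹ * h * φ g * φ h) * (φ h)⁻¹ := by group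
        _ = _ := by rw [this]; group
    rw [h4, e2]
    group
  have := key g⁻¹ h
  simpa using this

/-- conjugation by `y` and by `φ y` agree on commutators -/
theorem conj_eq (u z y : G) : φ y * ⁅u, z⁆ * (φ y)⁻¹ = y * ⁅u, z⁆ * y⁻¹ := by
  obtain ⟨a, rfl⟩ := φ.surjective u
  have h1 := shift φ hab a (y * z)
  have h2 := shift φ hab a y
  have h3 := shift φ hab a z
  have e : ∀ u y z : G, ⁅u, y * z⁆ = ⁅u, y⁆ * (y * ⁅u, z⁆ * y⁻¹) := fun u y z => by
    simp only [commutatorElement_def]; group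
  rw [map_mul, e, e, h2] at h1
  have h4 := mul_left_cancel h1
  rw [h4, h3]

theorem conj_pow (y : G) (i : ℕ) : ∀ u z : G,
    (φ ^ i) y * ⁅u, z⁆ * ((φ ^ i) y)⁻¹ = y * ⁅u, z⁆ * y⁻¹ := by
  induction i with
  | zero => intro u z; simp
  | succ i ih =>
    intro u z
    have : (φ ^ (i + 1)) y = φ ((φ ^ i) y) := by rw [pow_succ']; rfl
    rw [this, conj_eq φ hab, ih]

theorem conj_prod (y : G) (n : ℕ) : ∀ u z : G,
    ((List.range n).map fun i => (φ ^ i) y).prod * ⁅u, z⁆ *
      (((List.range n).map fun i => (φ ^ i) y).prod)⁻¹ = y ^ n * ⁅u, z⁆ * (y ^ n)⁻¹ := by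
  induction n with
  | zero => intro u z; simp
  | succ n ih =>
    intro u z
    have e : ∀ L t : G, (L * t) * ⁅u, z⁆ * (L * t)⁻¹ = L * (t * ⁅u, z⁆ * t⁻¹) * L⁻¹ :=
      fun L t => by group
    have e2 : y * ⁅u, z⁆ * y⁻¹ = ⁅y * u * y⁻¹, y * z * y⁻¹⁆ := by
      simp only [commutatorElement_def]; group
    rw [List.range_succ, List.map_append, List.prod_append, List.map_singleton,
      List.prod_singleton, e, conj_pow φ hab y n, e2, ih, ← e2, pow_succ, ← e]

/-- `n`-th powers centralise all commutators -/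
theorem pow_comm (n : ℕ) (hφ : ∀ x, ((List.range n).map fun i => (φ ^ i) x).prod = 1)
    (y u z : G) : Commute (y ^ n) ⁅u, z⁆ := by
  have h1 := conj_prod φ hab y n u z
  rw [hφ] at h1
  have h2 : y ^ n * ⁅u, z⁆ = ⁅u, z⁆ * y ^ n := by
    have : y ^ n * ⁅u, z⁆ * (y ^ n)⁻¹ = ⁅u, z⁆ := by rw [← h1]; group
    calc y ^ n * ⁅u, z⁆ = (y ^ n * ⁅u, z⁆ * (y ^ n)⁻¹) * y ^ n := by group
      _ = _ := by rw [this]
  exact h2

theorem class_two' (n : ℕ) (hφ : ∀ x, ((List.range n).map fun i => (φ ^ i) x).prod = 1)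
    (hn : ∀ y : G, y ∈ Subgroup.zpowers (y ^ n)) : Subgroup.upperCentralSeries G 2 = ⊤ := by
  rw [eq_top_iff]
  intro x _
  rw [Subgroup.mem_upperCentralSeries_succ_iff]
  intro y
  rw [Subgroup.mem_upperCentralSeries_succ_iff]
  intro z
  rw [Subgroup.upperCentralSeries_zero, Subgroup.mem_bot]
  obtain ⟨k, hk⟩ := Subgroup.mem_zpowers_iff.1 (hn z)
  have h1 : Commute z ⁅x, y⁆ := by
    rw [← hk]; exact (pow_comm φ hab n hφ z x y).zpow_left k
  have h2 : ⁅⁅x, y⁆, z⁆ = 1 := commutatorElement_eq_one_iff_commute.2 h1.symm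
  simpa [commutatorElement_def] using h2

end Pool.Agent.H63.SP
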