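import Mathlib

/-!
Groups in which every element commutes with all its conjugates (2-Engel groups) are nilpotent of
class at most three (Levi), and groups with a splitting endomorphism of order three are such.
-/

set_option autoImplicit false

namespace Pool.Agent.H63.SP

open scoped commutatorElement

/-! ### ring identities -/

theorem ring_xyx {R : Type*} [Ring R] (X Y : R) (hX : X * X = 0) (hY : Y * Y = 0)
    (h : (X + Y + X * Y) * (X + Y + X * Y) = 0) : X * Y * X = 0 := by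
  have e1 : X * ((X + Y + X * Y) * (X + Y + X * Y)) =
      X * X * (X + Y + X * Y + Y * (X + Y + X * Y)) + X * (Y * Y) * (1 + 0) +
        X * Y * X + X * Y * X * Y := by
    noncomm_ring
  rw [h, hX, hY] at e1
  have e2 : X * Y * X + X * Y * X * Y = 0 := by
    simpa using e1.symm
  have e3 : (X * Y * X + X * Y * X * Y) * (1 - Y) = X * Y * X - X * Y * X * (Y * Y) := by
    noncomm_ring
  rw [e2, hY] at e3
  simpa using e3.symm

theorem ring_yxy {R : Type*} [Ring R] (X Y : R) (hX : X * X = 0) (hY : Y * Y = 0)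
    (h : (X + Y + X * Y) * (X + Y + X * Y) = 0) : Y * X * Y = 0 := by
  have e1 : ((X + Y + X * Y) * (X + Y + X * Y)) * Y =
      (X + Y + X * Y) * (Y * Y + X * (Y * Y)) + X * X * Y + X * (Y * X * Y) + Y * X * Y := by
    noncomm_ring
  rw [h, hX, hY] at e1
  have e2 : X * (Y * X * Y) + Y * X * Y = 0 := by
    simpa using e1.symm
  have e3 : (1 - X) * (X * (Y * X * Y) + Y * X * Y) = Y * X * Y - X * X * (Y * X * Y) := by
    noncomm_ring
  rw [e2, hX] at e3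
  simpa using e3.symm

theorem ring_anti {R : Type*} [Ring R] (X Y : R) (hX : X * X = 0) (hY : Y * Y = 0)
    (h : (X + Y + X * Y) * (X + Y + X * Y) = 0) : X * Y + Y * X = 0 := by
  have h1 := ring_xyx X Y hX hY h
  have h2 := ring_yxy X Y hX hY h
  have e1 : (X + Y + X * Y) * (X + Y + X * Y) =
      X * X + X * X * Y + Y * Y + X * (Y * Y) + X * Y * X + Y * X * Y + X * Y * X * Y +
        (X * Y + Y * X) := by
    noncomm_ring
  rw [h, h1, h2, hX, hY] at e1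
  simpa using e1.symm

/-- the operator of a commutator -/
theorem ring_comm {R : Type*} [Ring R] (X Y : R) (hX : X * X = 0) (hY : Y * Y = 0)
    (h : (X + Y + X * Y) * (X + Y + X * Y) = 0) :
    (1 + X) * (1 + Y) * (1 - X) * (1 - Y) - 1 = X * Y + X * Y := by
  have h1 := ring_xyx X Y hX hY h
  have h2 := ring_yxy X Y hX hY h
  have h3 := ring_anti X Y hX hY h
  have e1 : (1 + X) * (1 + Y) * (1 - X) * (1 - Y) - 1 =
      X * Y + X * Y - (X * Y + Y * X) - X * X - Y * Y + X * X * Y - X * (Y * Y) + Y * X * Y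
        - X * Y * X + X * Y * X * Y := by
    noncomm_ring
  rw [e1, h1, h2, h3, hX, hY]
  simp

/-! ### the operators -/

theorem ops {G : Type*} [Group G] (hE : ∀ x a : G, x * (a * x * a⁻¹) = (a * x * a⁻¹) * x) (x g h : G) :
    ⁅g, ⁅h, x⁆⁆ * ⁅h, ⁅g, x⁆⁆ = 1 ∧ ⁅⁅g, h⁆, x⁆ = ⁅g, ⁅h, x⁆⁆ * ⁅g, ⁅h, x⁆⁆ := by
  classical
  have hcc : ∀ u ∈ Group.conjugatesOfSet ({x} : Set G), ∀ v ∈ Group.conjugatesOfSet ({x} : Set G),
      u * v = v * u := by
    intro u hu v hv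
    rw [Group.mem_conjugatesOfSet_iff] at hu hv
    obtain ⟨w1, hw1, hu⟩ := hu
    obtain ⟨w2, hw2, hv⟩ := hv
    rw [Set.mem_singleton_iff] at hw1 hw2
    rw [hw1, isConj_iff] at hu
    rw [hw2, isConj_iff] at hv
    obtain ⟨c, rfl⟩ := hu
    obtain ⟨d, rfl⟩ := hv
    have := hE (c * x * c⁻¹) (d * c⁻¹)
    have e : d * c⁻¹ * (c * x * c⁻¹) * (d * c⁻¹)⁻¹ = d * x * d⁻¹ := by group
    rw [e] at this
    exact this
  let A : Subgroup G := Subgroup.normalClosure {x}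
  let _ : CommGroup A := { (inferInstance : Group A) with
    mul_comm := (Subgroup.isMulCommutative_closure hcc).is_comm.comm }
  let E : G → AddMonoid.End (Additive A) := fun g =>
    MonoidHom.toAdditive (MulAut.conjNormal g : MulAut A).toMonoidHom
  have Eval : ∀ (g : G) (a : Additive A), (((E g a).toMul : A) : G) = g * (a.toMul : G) * g⁻¹ := by
    intro g a
    exact MulAut.conjNormal_apply g a.toMul
  have Emul : ∀ g h : G, E g * E h = E (g * h) := by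
    intro g h
    ext a
    change (((E g (E h a)).toMul : A) : G) = ((E (g * h) a).toMul : A)
    rw [Eval, Eval, Eval]
    group
  have Eone : E 1 = 1 := by
    ext a
    change (((E 1 a).toMul : A) : G) = (a.toMul : A)
    rw [Eval]
    group
  have Xval : ∀ (g : G) (a : Additive A), ((((E g - 1) a).toMul : A) : G) = ⁅g, (a.toMul : G)⁆ := by
    intro g a
    have : (E g - 1) a = E g a - a := rfl
    rw [this, commutatorElement_def, ← Eval g a, sub_eq_add_neg]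
    rfl
  have sq : ∀ g : G, (E g - 1) * (E g - 1) = 0 := by
    intro g
    ext a
    change ((((E g - 1) ((E g - 1) a)).toMul : A) : G) = ((0 : Additive A).toMul : A)
    rw [Xval, Xval]
    change ⁅g, ⁅g, (a.toMul : G)⁆⁆ = 1
    have := hE g (a.toMul : G)⁻¹⁻¹
    have h2 := hE g (a.toMul : G)
    rw [commutatorElement_eq_one_iff_mul_comm, commutatorElement_def]
    have h3 : g * ((a.toMul : G) * g⁻¹ * (a.toMul : G)⁻¹) = ((a.toMul : G) * g⁻¹ * (a.toMul : G)⁻¹) * g := by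
      have : (a.toMul : G) * g⁻¹ * (a.toMul : G)⁻¹ = ((a.toMul : G) * g * (a.toMul : G)⁻¹)⁻¹ := by group
      rw [this]
      exact (Commute.inv_right h2)
    calc g * (g * (a.toMul : G) * g⁻¹ * (a.toMul : G)⁻¹)
        = g * (g * ((a.toMul : G) * g⁻¹ * (a.toMul : G)⁻¹)) := by group
      _ = g * (((a.toMul : G) * g⁻¹ * (a.toMul : G)⁻¹) * g) := by rw [h3]
      _ = g * (a.toMul : G) * g⁻¹ * (a.toMul : G)⁻¹ * g := by group
  have hXY : ((E g - 1) + (E h - 1) + (E g - 1) * (E h - 1)) = E (g * h) - 1 := by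
    rw [← Emul]; simp only [mul_sub, sub_mul, mul_one, one_mul]; abel
  have H : ((E g - 1) + (E h - 1) + (E g - 1) * (E h - 1)) *
      ((E g - 1) + (E h - 1) + (E g - 1) * (E h - 1)) = 0 := by
    rw [hXY]; exact sq _
  have Einv : ∀ g : G, E g⁻¹ = 1 - (E g - 1) := by
    intro g
    have h1 : E g⁻¹ * E g = 1 := by rw [Emul, inv_mul_cancel, Eone]
    have h2 : E g * (1 - (E g - 1)) = 1 - (E g - 1) * (E g - 1) := by
      simp only [mul_sub, sub_mul, mul_one, one_mul]; abel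
    rw [sq, sub_zero] at h2
    calc E g⁻¹ = E g⁻¹ * (E g * (1 - (E g - 1))) := by rw [h2, mul_one]
      _ = (E g⁻¹ * E g) * (1 - (E g - 1)) := by rw [mul_assoc]
      _ = _ := by rw [h1, one_mul]
  let a : Additive A := Additive.ofMul ⟨x, Subgroup.subset_normalClosure rfl⟩
  have ha : ((a.toMul : A) : G) = x := rfl
  constructor
  · have h1 := ring_anti _ _ (sq g) (sq h) H
    have h2 : (((((E g - 1) * (E h - 1) + (E h - 1) * (E g - 1)) a).toMul : A) : G) = 1 := by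
      rw [h1]; rfl
    have h3 : (((((E g - 1) * (E h - 1) + (E h - 1) * (E g - 1)) a).toMul : A) : G) =
        (((E g - 1) ((E h - 1) a)).toMul : A) * (((E h - 1) ((E g - 1) a)).toMul : A) := rfl
    rw [h3, Xval, Xval, Xval, Xval, ha] at h2
    exact h2
  · have h1 := ring_comm _ _ (sq g) (sq h) H
    have e1 : (1 + (E g - 1)) * (1 + (E h - 1)) * (1 - (E g - 1)) * (1 - (E h - 1)) - 1 =
        E ⁅g, h⁆ - 1 := by
      rw [← Einv, ← Einv, add_sub_cancel, add_sub_cancel, Emul, Emul, Emul, commutatorElement_def]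
    rw [e1] at h1
    have h2 : ((((E ⁅g, h⁆ - 1) a).toMul : A) : G) =
        ((((E g - 1) * (E h - 1) + (E g - 1) * (E h - 1)) a).toMul : A) := by rw [h1]
    have h3 : (((((E g - 1) * (E h - 1) + (E g - 1) * (E h - 1)) a).toMul : A) : G) =
        (((E g - 1) ((E h - 1) a)).toMul : A) * (((E g - 1) ((E h - 1) a)).toMul : A) := rfl
    rw [h3, Xval, Xval, Xval, ha] at h2
    exact h2

section Levi

variable {G : Type*} [Group G] (hE : ∀ x a : G, x * (a * x * a⁻¹) = (a * x * a⁻¹) * x)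

include hE

theorem br_inv (g c : G) : ⁅g, c⁻¹⁆ = ⁅g, c⁆⁻¹ := by
  have h := hE c g
  have h2 : c * (g * c * g⁻¹)⁻¹ = (g * c * g⁻¹)⁻¹ * c := (Commute.inv_right h)
  have e : (g * c * g⁻¹)⁻¹ = g * c⁻¹ * g⁻¹ := by group
  rw [e] at h2
  rw [commutatorElement_inv, commutatorElement_def, commutatorElement_def, inv_inv, ← h2]
  group

theorem T_swap12 (g h x : G) : ⁅h, ⁅g, x⁆⁆ = ⁅g, ⁅h, x⁆⁆⁻¹ :=
  (inv_eq_of_mul_eq_one_right (ops hE x g h).1).symm

theorem T_swap23 (g h x : G) : ⁅g, ⁅x, h⁆⁆ = ⁅g, ⁅h, x⁆⁆⁻¹ := by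
  rw [← commutatorElement_inv h x, br_inv hE]

theorem T_cyc (g h x : G) : ⁅x, ⁅g, h⁆⁆ = ⁅g, ⁅h, x⁆⁆ := by
  rw [T_swap23 hE x h g, T_swap12 hE h x g, T_swap23 hE h g x, T_swap12 hE g h x]
  simp

theorem T_sq (g h x : G) : ⁅⁅g, h⁆, x⁆ = ⁅g, ⁅h, x⁆⁆⁻¹ := by
  rw [← commutatorElement_inv, T_cyc hE]

theorem T_cube (g h x : G) : ⁅g, ⁅h, x⁆⁆ * ⁅g, ⁅h, x⁆⁆ * ⁅g, ⁅h, x⁆⁆ = 1 := by
  have h1 := (ops hE x g h).2
  rw [T_sq hE] at h1
  rw [← h1]; exact inv_mul_cancel _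

theorem F_one (k g h x : G) : ⁅k, ⁅g, ⁅h, x⁆⁆⁆ = 1 := by
  have a1 : ⁅k, ⁅g, ⁅h, x⁆⁆⁆ = ⁅h, ⁅x, ⁅k, g⁆⁆⁆⁻¹ := by
    exact ((T_cyc hE g ⁅h, x⁆ k).trans (T_cyc hE ⁅h, x⁆ k g)).trans (T_sq hE h x ⁅k, g⁆)
  have s1 : ∀ k g h x : G, ⁅g, ⁅k, ⁅h, x⁆⁆⁆ = ⁅k, ⁅g, ⁅h, x⁆⁆⁆⁻¹ := fun k g h x =>
    T_swap12 hE k g ⁅h, x⁆
  have s2 : ∀ k g h x : G, ⁅k, ⁅h, ⁅g, x⁆⁆⁆ = ⁅k, ⁅g, ⁅h, x⁆⁆⁆⁻¹ := fun k g h x => by
    rw [T_swap12 hE g h x, br_inv hE]
  have s3 : ∀ k g h x : G, ⁅k, ⁅g, ⁅x, h⁆⁆⁆ = ⁅k, ⁅g, ⁅h, x⁆⁆⁆⁻¹ := fun k g h x => by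
    rw [T_swap23 hE g h x, br_inv hE]
  have a2 : ⁅h, ⁅x, ⁅k, g⁆⁆⁆ = ⁅k, ⁅g, ⁅h, x⁆⁆⁆ := by
    rw [s2 h k x g, s3 h k g x, s1 k h g x, s2 k g h x]
    simp
  have a3 := T_cube hE k g ⁅h, x⁆
  rw [a2] at a1
  have a4 : ⁅k, ⁅g, ⁅h, x⁆⁆⁆ * ⁅k, ⁅g, ⁅h, x⁆⁆⁆ = 1 := by
    nth_rewrite 1 [a1]
    exact inv_mul_cancel _
  rw [a4, one_mul] at a3
  exact a3

theorem levi : Subgroup.upperCentralSeries G 3 = ⊤ := by
  rw [eq_top_iff]
  intro x _
  rw [Subgroup.mem_upperCentralSeries_succ_iff]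
  intro y
  rw [Subgroup.mem_upperCentralSeries_succ_iff]
  intro z
  rw [Subgroup.mem_upperCentralSeries_succ_iff]
  intro w
  rw [Subgroup.upperCentralSeries_zero, Subgroup.mem_bot]
  have h1 := F_one hE w z x y
  have h2 : ⁅⁅⁅x, y⁆, z⁆, w⁆ = 1 := by
    rw [← commutatorElement_inv, ← commutatorElement_inv z, br_inv hE, h1]
    simp
  simpa [commutatorElement_def] using h2

end Levi

/-! ### splitting endomorphisms of order three -/

theorem engel {G : Type*} [Group G] (f : G →* G) (hf : ∀ x, x * f x * f (f x) = 1) (x a : G) :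
    x * (a * x * a⁻¹) = (a * x * a⁻¹) * x := by
  -- the square of `f`
  have h2 : ∀ x, f (f x) = (f x)⁻¹ * x⁻¹ := fun x => by
    have := hf x
    rw [← mul_inv_rev]
    exact (inv_eq_of_mul_eq_one_right this).symm
  have h3 : ∀ x, f (f (f x)) = x := fun x => by
    have h1 := hf x
    have h4 := hf (f x)
    have h5 : f x * f (f x) = x⁻¹ := by
      rw [mul_assoc] at h1
      exact (inv_eq_of_mul_eq_one_right h1).symm
    rw [h5] at h4
    simpa using (inv_eq_of_mul_eq_one_right h4).symm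
  have hc : ∀ x, x * f x = f x * x := fun x => by
    have h1 := hf (f (f x))
    rw [h3] at h1
    -- f (f x) * x * f x = 1
    have h4 := hf x⁻¹
    rw [map_inv, map_inv] at h4
    have h5 : f (f x) * f x * x = 1 := by
      have := congrArg (·⁻¹) h4
      simpa [mul_assoc] using this
    have h6 : f (f x) * (x * f x) = f (f x) * (f x * x) := by
      rw [← mul_assoc, ← mul_assoc, h5]; exact h1
    exact mul_left_cancel h6
  -- the key identity
  have hI : ∀ g h, g * h * f g * f h = h * f h * (g * f g) := fun g h => by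
    have h1 := hf (g * h)
    rw [map_mul, map_mul, h2 g, h2 h] at h1
    have h4 : g * h * (f g * f h) = ((f g)⁻¹ * g⁻¹ * ((f h)⁻¹ * h⁻¹))⁻¹ := eq_inv_of_mul_eq_one_left h1
    rw [mul_assoc (g * h), h4]
    simp [mul_assoc]
  have hII : ∀ g h : G, ⁅h⁻¹, g⁆ = ⁅f h, (f (f g))⁻¹⁆ := fun g h => by
    have h1 := hI g h
    have h4 : (f (f g))⁻¹ = g * f g := by rw [h2]; simp
    rw [h4, commutatorElement_def, commutatorElement_def]
    have h5 : g * h * g⁻¹ = h * f h * (g * f g) * (f h)⁻¹ * (f g)⁻¹ * g⁻¹ := by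
      rw [← h1]; group
    calc h⁻¹ * g * h⁻¹⁻¹ * g⁻¹ = h⁻¹ * (g * h * g⁻¹) := by group
      _ = _ := by rw [h5]; group
  have hII' : ∀ g h : G, ⁅h, g⁆ = ⁅(f h)⁻¹, (f (f g))⁻¹⁆ := fun g h => by
    have := hII g h⁻¹
    rwa [inv_inv, map_inv] at this
  have hIII : ∀ g h : G, ⁅h, g⁆ = ⁅h⁻¹, g⁻¹⁆ := fun g h => by
    rw [hII' g h, hII' (f (f g))⁻¹ (f h)⁻¹, hII' (f (f (f (f g))⁻¹))⁻¹ (f (f h)⁻¹)⁻¹]
    simp only [map_inv, inv_inv, h3]
  -- `u v` and `v u` commute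
  have hIV : ∀ u v : G, (u * v) * (v * u) = (v * u) * (u * v) := fun u v => by
    have h1 := hIII v u
    rw [commutatorElement_def, commutatorElement_def, inv_inv, inv_inv] at h1
    -- u v u⁻¹ v⁻¹ = u⁻¹ v⁻¹ u v
    have h4 : (u * v) * (v * u)⁻¹ = (v * u)⁻¹ * (u * v) := by
      rw [mul_inv_rev]
      simpa [mul_assoc] using h1
    have h5 : Commute (u * v) (v * u)⁻¹ := h4
    exact (Commute.inv_right_iff.1 h5)
  have := hIV (x * a⁻¹) a
  have e1 : x * a⁻¹ * a = x := by group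
  have e2 : a * (x * a⁻¹) = a * x * a⁻¹ := by group
  rw [e1, e2] at this
  exact this

end Pool.Agent.H63.SP
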