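import Pool.Agent.H63.SP.Comm

/-!
Automorphisms `φ` with `x φ(x) = φ(x) x` for all `x` act trivially on the third term of the lower
central series.
-/

set_option autoImplicit false

namespace Pool.Agent.H63.SP

open scoped commutatorElement

variable {G : Type*} [Group G] (φ : MulAut G) (hab : ∀ x : G, x * φ x = φ x * x)

include hab

theorem conj_all (y c : G) (hc : c ∈ (⁅(⊤ : Subgroup G), ⊤⁆ : Subgroup G)) :
    φ y * c * (φ y)⁻¹ = y * c * y⁻¹ := by
  rw [Subgroup.commutator_def] at hc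
  induction hc using Subgroup.closure_induction with
  | mem x hx =>
    obtain ⟨u, _, z, _, rfl⟩ := hx
    exact conj_eq φ hab u z y
  | one => simp
  | mul a b _ _ ha hb =>
    calc φ y * (a * b) * (φ y)⁻¹ = (φ y * a * (φ y)⁻¹) * (φ y * b * (φ y)⁻¹) := by group
      _ = _ := by rw [ha, hb]; group
  | inv a _ ha =>
    calc φ y * a⁻¹ * (φ y)⁻¹ = (φ y * a * (φ y)⁻¹)⁻¹ := by group
      _ = _ := by rw [ha]; group

theorem fix_br (y c : G) (hc : c ∈ (⁅(⊤ : Subgroup G), ⊤⁆ : Subgroup G)) :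
    φ ⁅y, c⁆ = ⁅y, c⁆ := by
  have h1 : ∀ y, ⁅φ y, c⁆ = ⁅y, c⁆ := fun y => by
    rw [commutatorElement_def, conj_all φ hab y c hc, commutatorElement_def]
  have h2 : ⁅φ y, φ c⁆ = ⁅φ y, c⁆ := by
    rw [← shift φ hab (φ y) c, h1 (φ y)]
  rw [map_commutatorElement, h2, h1]

theorem fix_third (x : G) (hx : x ∈ (⁅(⁅(⊤ : Subgroup G), ⊤⁆ : Subgroup G), ⊤⁆ : Subgroup G)) :
    φ x = x := by
  rw [Subgroup.commutator_def] at hx
  induction hx using Subgroup.closure_induction with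
  | mem x hx =>
    obtain ⟨c, hc, y, _, rfl⟩ := hx
    rw [← commutatorElement_inv, map_inv, fix_br φ hab y c hc]
  | one => simp
  | mul a b _ _ ha hb => rw [map_mul, ha, hb]
  | inv a _ ha => rw [map_inv, ha]

theorem pow_third (n : ℕ) (hφ : ∀ x, ((List.range n).map fun i => (φ ^ i) x).prod = 1)
    (x : G) (hx : x ∈ (⁅(⁅(⊤ : Subgroup G), ⊤⁆ : Subgroup G), ⊤⁆ : Subgroup G)) :
    φ x = x ∧ x ^ n = 1 := by
  have h1 := fix_third φ hab x hx
  refine ⟨h1, ?_⟩
  have h2 : ∀ i : ℕ, (φ ^ i) x = x := fun i => by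
    induction i with
    | zero => simp
    | succ i ih =>
      have : (φ ^ (i + 1)) x = φ ((φ ^ i) x) := by rw [pow_succ']; rfl
      rw [this, ih, h1]
  have h3 := hφ x
  simp only [h2] at h3
  simpa using h3

end Pool.Agent.H63.SP
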