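import Pool.Agent.H63.SP.Levi

/-!
Groups without elements of order three in which every element commutes with all its conjugates
are nilpotent of class at most two.
-/

set_option autoImplicit false

namespace Pool.Agent.H63.SP

open scoped commutatorElement

theorem class_two {G : Type*} [Group G] (hE : ∀ x a : G, x * (a * x * a⁻¹) = (a * x * a⁻¹) * x)
    (h3 : ∀ g : G, g ^ 3 = 1 → g = 1) : Subgroup.upperCentralSeries G 2 = ⊤ := by
  have hT : ∀ z x y : G, ⁅z, ⁅x, y⁆⁆ = 1 := fun z x y => by
    refine h3 _ ?_
    rw [pow_succ, pow_two]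
    exact T_cube hE z x y
  rw [eq_top_iff]
  intro x _
  rw [Subgroup.mem_upperCentralSeries_succ_iff]
  intro y
  rw [Subgroup.mem_upperCentralSeries_succ_iff]
  intro z
  rw [Subgroup.upperCentralSeries_zero, Subgroup.mem_bot]
  have h2 : ⁅⁅x, y⁆, z⁆ = 1 := by
    rw [← commutatorElement_inv, hT]
    simp
  simpa [commutatorElement_def] using h2

end Pool.Agent.H63.SP
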