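import Pool.Agent.H63.SP.Third

/-!
Splitting automorphisms of odd order `p` with `x φ(x) = φ(x) x` for all `x`: all `p`-th powers lie
in the second centre.
-/

set_option autoImplicit false

namespace Pool.Agent.H63.SP

open scoped commutatorElement

variable {G : Type*} [Group G] (φ : MulAut G) (hab : ∀ x : G, x * φ x = φ x * x)

include hab

theorem br_br (a z w : G) : ⁅⁅a, z⁆, w⁆ = ⁅⁅a, φ (φ z)⁆, w⁆ := by
  have m : ∀ a z : G, ⁅a, z⁆ ∈ (⁅(⊤ : Subgroup G), ⊤⁆ : Subgroup G) := fun a z =>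
    Subgroup.commutator_mem_commutator (Subgroup.mem_top _) (Subgroup.mem_top _)
  have h1 : φ ⁅⁅a, z⁆, w⁆ = ⁅⁅a, z⁆, w⁆ :=
    fix_third φ hab _ (Subgroup.commutator_mem_commutator (m a z) (Subgroup.mem_top _))
  have h2 : ∀ c ∈ (⁅(⊤ : Subgroup G), ⊤⁆ : Subgroup G), ⁅c, φ w⁆ = ⁅c, w⁆ := fun c hc => by
    have h3 := conj_all φ hab w c⁻¹ (Subgroup.inv_mem _ hc)
    calc ⁅c, φ w⁆ = c * (φ w * c⁻¹ * (φ w)⁻¹) := by rw [commutatorElement_def]; group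
      _ = _ := by rw [h3, commutatorElement_def]; group
  rw [← h1, map_commutatorElement, map_commutatorElement, shift φ hab a (φ z), h2 _ (m _ _)]

theorem t_mem (a z w : G) : Commute ⁅a, z⁻¹ * φ (φ z)⁆ w := by
  have h1 : ∀ w, (⁅a, z⁆⁻¹ * ⁅a, φ (φ z)⁆) * w = w * (⁅a, z⁆⁻¹ * ⁅a, φ (φ z)⁆) := fun w => by
    have h2 := br_br φ hab a z w
    rw [commutatorElement_def ⁅a, z⁆ w, commutatorElement_def ⁅a, φ (φ z)⁆ w] at h2
    have h3 : ⁅a, z⁆ * w * ⁅a, z⁆⁻¹ = ⁅a, φ (φ z)⁆ * w * ⁅a, φ (φ z)⁆⁻¹ := mul_right_cancel h2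
    calc (⁅a, z⁆⁻¹ * ⁅a, φ (φ z)⁆) * w
        = ⁅a, z⁆⁻¹ * (⁅a, φ (φ z)⁆ * w * ⁅a, φ (φ z)⁆⁻¹) * ⁅a, φ (φ z)⁆ := by group
      _ = _ := by rw [← h3]; group
  have h4 : z * ⁅a, z⁻¹ * φ (φ z)⁆ * z⁻¹ = ⁅a, z⁆⁻¹ * ⁅a, φ (φ z)⁆ := by
    simp only [commutatorElement_def]; group
  have h5 : ⁅a, z⁻¹ * φ (φ z)⁆ = ⁅a, z⁆⁻¹ * ⁅a, φ (φ z)⁆ := by
    have : ⁅a, z⁻¹ * φ (φ z)⁆ = z⁻¹ * (z * ⁅a, z⁻¹ * φ (φ z)⁆ * z⁻¹) * z := by group
    rw [this, h4, mul_assoc, h1 z]; group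
  have h6 : ⁅a, z⁻¹ * φ (φ z)⁆ * w = w * ⁅a, z⁻¹ * φ (φ z)⁆ := by
    rw [h5]; exact h1 w
  exact h6

theorem t_mem2 (z : G) : z⁻¹ * φ (φ z) ∈ Subgroup.upperCentralSeries G 2 := by
  rw [Subgroup.mem_upperCentralSeries_succ_iff]
  intro y
  rw [Subgroup.mem_upperCentralSeries_succ_iff]
  intro w
  rw [Subgroup.upperCentralSeries_zero, Subgroup.mem_bot]
  have h1 : Commute ⁅z⁻¹ * φ (φ z), y⁆ w := by
    rw [← commutatorElement_inv]; exact (t_mem φ hab y z w).inv_left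
  have h2 : ⁅⁅z⁻¹ * φ (φ z), y⁆, w⁆ = 1 := commutatorElement_eq_one_iff_commute.2 h1
  simpa [commutatorElement_def] using h2

theorem pow_mem2 (n : ℕ) (hn : n % 2 = 1) (hone : φ ^ n = 1)
    (hφ : ∀ x, ((List.range n).map fun i => (φ ^ i) x).prod = 1) (x : G) :
    x ^ n ∈ Subgroup.upperCentralSeries G 2 := by
  let Z := Subgroup.upperCentralSeries G 2
  have hq2 : ∀ z : G, (QuotientGroup.mk (φ (φ z)) : G ⧸ Z) = QuotientGroup.mk z := fun z =>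
    (QuotientGroup.eq.2 (t_mem2 φ hab z)).symm
  have hev : ∀ (k : ℕ) (z : G), (QuotientGroup.mk ((φ ^ (2 * k)) z) : G ⧸ Z) =
      QuotientGroup.mk z := fun k => by
    induction k with
    | zero => intro z; simp
    | succ k ih =>
      intro z
      have : (φ ^ (2 * (k + 1))) z = φ (φ ((φ ^ (2 * k)) z)) := by
        rw [show 2 * (k + 1) = 2 * k + 1 + 1 by ring, pow_succ', pow_succ']; rfl
      rw [this, hq2, ih]
  have h1 : ∀ z : G, (QuotientGroup.mk (φ z) : G ⧸ Z) = QuotientGroup.mk z := fun z => by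
    have h2 := hev ((n + 1) / 2) z
    have h3 : 2 * ((n + 1) / 2) = n + 1 := by omega
    rw [h3, pow_succ, hone, one_mul] at h2
    exact h2
  have hall : ∀ (i : ℕ), (QuotientGroup.mk ((φ ^ i) x) : G ⧸ Z) = QuotientGroup.mk x := fun i => by
    induction i with
    | zero => simp
    | succ i ih =>
      have : (φ ^ (i + 1)) x = φ ((φ ^ i) x) := by rw [pow_succ']; rfl
      rw [this, h1, ih]
  have h5 := congrArg (QuotientGroup.mk' Z) (hφ x)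
  rw [map_list_prod, map_one, List.map_map] at h5
  have h6 : ((List.range n).map ((QuotientGroup.mk' Z) ∘ fun i => (φ ^ i) x)) =
      (List.range n).map fun _ => (QuotientGroup.mk' Z x) := by
    refine List.map_congr_left fun i _ => ?_
    exact hall i
  rw [h6] at h5
  have h7 : (QuotientGroup.mk' Z x) ^ n = 1 := by simpa using h5
  rw [← map_pow] at h7
  exact (QuotientGroup.eq_one_iff (x ^ n)).1 h7

end Pool.Agent.H63.SP
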